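import Mathlib
import Pool.Agent.V11217.Omega1

/-!
Two cover games with open-set responses that are not equivalent for player Two.
-/

namespace Pool.Agent.Results.MP_953c35_gt.MarkovInequivalent

open Set Filter Topology

/-- ideal bases -/
def IsIdealBase {X : Type*} (𝒜 : Set (Set X)) : Prop :=
  ∀ A₁ ∈ 𝒜, ∀ A₂ ∈ 𝒜, ∃ A₃ ∈ 𝒜, A₁ ∪ A₂ ⊆ A₃

/-- open covers, without the whole space as a member, such that every member of `ℬ` lies in a
member of the cover -/
def OCovers {X : Type*} [TopologicalSpace X] (ℬ : Set (Set X)) : Set (Set (Set X)) :=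
  {𝒰 | (∀ U ∈ 𝒰, IsOpen U) ∧ ⋃₀ 𝒰 = univ ∧ univ ∉ 𝒰 ∧ ∀ B ∈ ℬ, ∃ U ∈ 𝒰, B ⊆ U}

/-- infinite open covers, without the whole space as a member, such that every member of `ℬ` lies
in all but finitely many members of the cover -/
def GammaCovers {X : Type*} [TopologicalSpace X] (ℬ : Set (Set X)) : Set (Set (Set X)) :=
  {𝒰 | 𝒰.Infinite ∧ (∀ U ∈ 𝒰, IsOpen U) ∧ ⋃₀ 𝒰 = univ ∧ univ ∉ 𝒰 ∧
    ∀ B ∈ ℬ, {U ∈ 𝒰 | ¬ B ⊆ U}.Finite}

/-- legal answers of Two to the move `A` -/
def Legal {X : Type*} [TopologicalSpace X] (A U : Set X) : Prop :=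
  IsOpen U ∧ A ⊆ U ∧ U ≠ univ

/-- Two has a winning Markov strategy in the game in which One plays members of `𝒜`, Two answers
with legal open sets, and Two wins when the set of answers is not in `P`. -/
def TwoWinsMarkov {X : Type*} [TopologicalSpace X] (𝒜 : Set (Set X)) (P : Set (Set (Set X))) :
    Prop :=
  ∃ σ : ℕ → Set X → Set X, ∀ A : ℕ → Set X, (∀ n, A n ∈ 𝒜) →
    (∀ n, Legal (A n) (σ n (A n))) ∧ Set.range (fun n => σ n (A n)) ∉ P

/-- Two has a winning strategy depending on all previous moves of One. -/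
def TwoWins {X : Type*} [TopologicalSpace X] (𝒜 : Set (Set X)) (P : Set (Set (Set X))) :
    Prop :=
  ∃ σ : List (Set X) → Set X, ∀ A : ℕ → Set X, (∀ n, A n ∈ 𝒜) →
    (∀ n, Legal (A n) (σ ((List.range (n + 1)).map A))) ∧
      Set.range (fun n => σ ((List.range (n + 1)).map A)) ∉ P

/-- equivalence of two games for player Two -/
def EquivalentForTwo {X : Type*} [TopologicalSpace X] (𝒜 : Set (Set X))
    (P Q : Set (Set (Set X))) : Prop :=
  (TwoWins 𝒜 P ↔ TwoWins 𝒜 Q) ∧ (TwoWinsMarkov 𝒜 P ↔ TwoWinsMarkov 𝒜 Q)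

section Construction

variable (W : Type) [LinearOrder W]

/-- The space: characteristic functions of sets of order type at most omega. -/
abbrev Sp : Type := {x : W → Bool // ∀ α, (∀ β, x β = true → β < α) ∨
  {β | β < α ∧ x β = true}.Finite}

/-- the moves of One -/
def mv (α : W) : Set (Sp W) := {x | ∀ β, x.1 β = true → β < α}

theorem sp_nhd {U : Set (Sp W)} (hU : IsOpen U) {x : Sp W} (hx : x ∈ U) :
    ∃ G : Finset W, ∀ y : Sp W, (∀ g ∈ G, y.1 g = x.1 g) → y ∈ U := by
  obtain ⟨V, hV, rfl⟩ := isOpen_induced_iff.1 hU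
  obtain ⟨I, u, hu, hsub⟩ := isOpen_pi_iff.1 hV x.1 hx
  refine ⟨I, fun y hy => hsub ?_⟩
  intro i hi
  have hi' : i ∈ I := hi
  rw [hy i hi']
  exact (hu i hi').2

theorem single_mem (β : W) : ∀ α, (∀ γ, (fun i => decide (i = β)) γ = true → γ < α) ∨
    {γ | γ < α ∧ (fun i => decide (i = β)) γ = true}.Finite := by
  intro α
  right
  refine (Set.finite_singleton β).subset ?_
  rintro γ ⟨_, h⟩
  simpa using h

variable [WellFoundedLT W]

/-- An infinite set contains an infinite set whose characteristic function is in the space. -/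
theorem exists_typeOmega {S : Set W} (hS : S.Infinite) : ∃ a ⊆ S, a.Infinite ∧
    ∀ α, (∀ β ∈ a, β < α) ∨ {β | β < α ∧ β ∈ a}.Finite := by
  by_cases h : {δ : W | {β | β < δ ∧ β ∈ S}.Infinite}.Nonempty
  · let δ := WellFounded.min (wellFounded_lt (α := W)) _ h
    have hδ : {β | β < δ ∧ β ∈ S}.Infinite :=
      WellFounded.min_mem (wellFounded_lt (α := W)) {δ : W | {β | β < δ ∧ β ∈ S}.Infinite} h
    have hmin : ∀ α, α < δ → {β | β < α ∧ β ∈ S}.Finite := by
      intro α hα
      by_contra hcon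
      exact WellFounded.not_lt_min (wellFounded_lt (α := W))
        {δ : W | {β | β < δ ∧ β ∈ S}.Infinite} (x := α) hcon hα
    refine ⟨{β | β < δ ∧ β ∈ S}, fun β hβ => hβ.2, hδ, ?_⟩
    intro α
    rcases lt_or_ge α δ with hlt | hge
    · right
      exact (hmin α hlt).subset (fun β hβ => ⟨hβ.1, hβ.2.2⟩)
    · left
      intro β hβ
      exact lt_of_lt_of_le hβ.1 hge
  · rw [Set.not_nonempty_iff_eq_empty] at h
    refine ⟨S, Subset.rfl, hS, ?_⟩
    intro α
    right
    by_contra hcon
    have : α ∈ {δ : W | {β | β < δ ∧ β ∈ S}.Infinite} := hcon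
    rw [h] at this
    exact this

end Construction

theorem result : ∃ (X : Type) (_ : TopologicalSpace X) (𝒜 ℬ : Set (Set X)), T35Space X ∧
    𝒜.Nonempty ∧ IsIdealBase 𝒜 ∧ (∀ A ∈ 𝒜, ∃ U, Legal A U) ∧
    TwoWinsMarkov 𝒜 (GammaCovers ℬ) ∧ ¬ TwoWinsMarkov 𝒜 (OCovers ℬ) ∧
    ¬ EquivalentForTwo 𝒜 (GammaCovers ℬ) (OCovers ℬ) := by
  classical
  obtain ⟨W, _, hwf, hc, hb⟩ := Pool.Agent.V11217.exists_omega1
  have hne : Nonempty W := by
    obtain ⟨w, _⟩ := hb ∅ countable_empty
    exact ⟨w⟩
  let V : W → Set (Sp W) := fun α => {x | x.1 α = false}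
  have hVopen : ∀ α, IsOpen (V α) := by
    intro α
    have h1 : Continuous (fun x : Sp W => x.1 α) :=
      (continuous_apply α).comp continuous_subtype_val
    have h2 : V α = (fun x : Sp W => x.1 α) ⁻¹' {false} := by
      ext x; simp [V]
    rw [h2]
    exact (isOpen_discrete _).preimage h1
  have hVlegal : ∀ α, Legal (mv W α) (V α) := by
    intro α
    refine ⟨hVopen α, ?_, ?_⟩
    · intro x hx
      change x.1 α = false
      by_contra hcon
      exact lt_irrefl α (hx α (by simpa using hcon))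
    · intro hcon
      have : (⟨_, single_mem W α⟩ : Sp W) ∈ V α := by rw [hcon]; trivial
      have h2 : decide (α = α) = false := this
      simp at h2
  have hVinj : Function.Injective V := by
    intro α β hαβ
    by_contra hne
    have h1 : (⟨_, single_mem W α⟩ : Sp W) ∈ V β := by
      change decide (β = α) = false
      simpa using fun h => hne h.symm
    rw [← hαβ] at h1
    have h2 : decide (α = α) = false := h1
    simp at h2
  have hmvinj : Function.Injective (mv W) := by
    have key : ∀ α β, α < β → mv W α ≠ mv W β := by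
      intro α β hlt heq
      have h1 : (⟨_, single_mem W α⟩ : Sp W) ∈ mv W β := by
        intro γ hγ
        have : γ = α := by simpa using hγ
        rw [this]; exact hlt
      rw [← heq] at h1
      exact lt_irrefl α (h1 α (by simp))
    intro α β hαβ
    rcases lt_trichotomy α β with h | h | h
    · exact absurd hαβ (key α β h)
    · exact h
    · exact absurd hαβ.symm (key β α h)
  let 𝒜 : Set (Set (Sp W)) := Set.range (mv W)
  let ℬ : Set (Set (Sp W)) := Set.range (fun x => {x})
  have hΓ : TwoWinsMarkov 𝒜 (GammaCovers ℬ) := by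
    refine ⟨fun _ A => V (Function.invFun (mv W) A), ?_⟩
    intro A hA
    choose α hα using hA
    have hinv : ∀ n, Function.invFun (mv W) (A n) = α n := by
      intro n
      rw [← hα n]
      exact Function.leftInverse_invFun hmvinj _
    simp only [hinv]
    refine ⟨fun n => by rw [← hα n]; exact hVlegal _, ?_⟩
    rintro ⟨hinf, -, -, -, hfin⟩
    have hαinf : (Set.range α).Infinite := by
      intro hcon
      apply hinf
      have : Set.range (fun n => V (α n)) = V '' Set.range α := by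
        rw [← Set.range_comp]; rfl
      rw [this]
      exact hcon.image V
    obtain ⟨a, haS, hainf, ha⟩ := exists_typeOmega W hαinf
    let x : Sp W := ⟨fun β => decide (β ∈ a), by simpa using ha⟩
    have h1 := hfin {x} ⟨x, rfl⟩
    apply hainf
    refine Set.Finite.of_finite_image (f := V) (h1.subset ?_) hVinj.injOn
    rintro _ ⟨β, hβ, rfl⟩
    refine ⟨?_, ?_⟩
    · obtain ⟨n, rfl⟩ := haS hβ
      exact ⟨n, rfl⟩
    · intro hsub
      have h2 : decide (β ∈ a) = false := hsub rfl
      simp [hβ] at h2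
  have hO : ¬ TwoWinsMarkov 𝒜 (OCovers ℬ) := by
    rintro ⟨σ, hσ⟩
    have hlegal : ∀ n α, Legal (mv W α) (σ n (mv W α)) :=
      fun n α => (hσ (fun _ => mv W α) (fun _ => ⟨α, rfl⟩)).1 n
    -- the finite supports
    have hG : ∀ (n : ℕ) (α : W) (x : Sp W), ∃ G : Finset W, x ∈ mv W α →
        ∀ y : Sp W, (∀ g ∈ G, y.1 g = x.1 g) → y ∈ σ n (mv W α) := by
      intro n α x
      by_cases hx : x ∈ mv W α
      · obtain ⟨G, hG⟩ := sp_nhd W (hlegal n α).1 ((hlegal n α).2.1 hx)
        exact ⟨G, fun _ => hG⟩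
      · exact ⟨∅, fun h => absurd h hx⟩
    choose G hG using hG
    have hfinpt : ∀ s : Finset W, ∀ α, (∀ γ, (fun i => decide (i ∈ s)) γ = true → γ < α) ∨
        {γ | γ < α ∧ (fun i => decide (i ∈ s)) γ = true}.Finite := by
      intro s α
      right
      refine s.finite_toSet.subset ?_
      rintro γ ⟨_, h⟩
      simpa using h
    let pt : Finset W → Sp W := fun s => ⟨fun i => decide (i ∈ s), hfinpt s⟩
    obtain ⟨w0⟩ := hne
    obtain ⟨δ, -, hδ, f, -, hfδ, hfcof⟩ := Pool.Agent.V11217.exists_closed_bound hc hb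
      (fun s : Finset W => ⋃ n : ℕ, ⋃ α ∈ s, ⋃ t ∈ s.powerset, (↑(G n α (pt t)) : Set W))
      (fun s => countable_iUnion (fun n => s.countable_toSet.biUnion (fun α _ =>
        s.powerset.countable_toSet.biUnion (fun t _ => (G n α (pt t)).countable_toSet)))) w0
    have hclosed : ∀ (n : ℕ) (α : W) (t : Finset W), α < δ → (∀ x ∈ t, x < δ) →
        ∀ y ∈ G n α (pt t), y < δ := by
      intro n α t hα ht y hy
      refine hδ (insert α t) ?_ y ?_
      · intro x hx
        rcases Finset.mem_insert.1 hx with rfl | hx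
        · exact hα
        · exact ht x hx
      · simp only [mem_iUnion, exists_prop]
        exact ⟨n, α, Finset.mem_insert_self _ _, t,
          Finset.mem_powerset.2 (Finset.subset_insert _ _), hy⟩
    let A : ℕ → Set (Sp W) := fun n => match n with
      | 0 => mv W δ
      | n + 1 => mv W (f n)
    have hA : ∀ n, A n ∈ 𝒜 := by
      intro n
      cases n with
      | zero => exact ⟨δ, rfl⟩
      | succ n => exact ⟨f n, rfl⟩
    obtain ⟨hl, hnot⟩ := hσ A hA
    apply hnot
    have hcov : ∀ x : Sp W, ∃ n, x ∈ σ n (A n) := by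
      intro x
      rcases x.2 δ with h | h
      · exact ⟨0, (hl 0).2.1 h⟩
      · let s : Finset W := h.toFinset
        have hs : ∀ β, β ∈ s ↔ β < δ ∧ x.1 β = true := by
          intro β; simp [s]
        have hbd : ∃ n, ∀ β ∈ s, β < f n := by
          have hch : ∀ β ∈ s, ∃ n, β < f n := fun β hβ => hfcof β ((hs β).1 hβ).1
          choose! m hm using hch
          by_cases hse : s.Nonempty
          · obtain ⟨b, hb1, hb2⟩ := s.exists_max_image (fun β => f (m β)) hse
            exact ⟨m b, fun β hβ => lt_of_lt_of_le (hm β hβ) (hb2 β hβ)⟩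
          · rw [Finset.not_nonempty_iff_eq_empty] at hse
            exact ⟨0, fun β hβ => by rw [hse] at hβ; exact absurd hβ (Finset.notMem_empty _)⟩
        obtain ⟨n, hn⟩ := hbd
        refine ⟨n + 1, ?_⟩
        change x ∈ σ (n + 1) (mv W (f n))
        refine hG (n + 1) (f n) (pt s) ?_ x ?_
        · intro β hβ
          exact hn β (by simpa [pt] using hβ)
        · intro g hg
          have hgδ : g < δ := hclosed (n + 1) (f n) s (hfδ n)
            (fun β hβ => ((hs β).1 hβ).1) g hg
          change x.1 g = decide (g ∈ s)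
          by_cases hxg : x.1 g = true
          · rw [hxg]
            simp [(hs g).2 ⟨hgδ, hxg⟩]
          · have hgs : g ∉ s := fun h => hxg ((hs g).1 h).2
            simp only [hgs, decide_false]
            simpa using hxg
    refine ⟨?_, ?_, ?_, ?_⟩
    · rintro _ ⟨n, rfl⟩; exact (hl n).1
    · rw [eq_univ_iff_forall]
      intro x
      obtain ⟨n, hn⟩ := hcov x
      exact ⟨_, ⟨n, rfl⟩, hn⟩
    · rintro ⟨n, hn⟩; exact (hl n).2.2 hn
    · rintro _ ⟨x, rfl⟩
      obtain ⟨n, hn⟩ := hcov x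
      exact ⟨_, ⟨n, rfl⟩, by simpa using hn⟩
  refine ⟨Sp W, inferInstance, 𝒜, ℬ, inferInstance, ?_, ?_, ?_, hΓ, hO,
    fun h => hO (h.2.1 hΓ)⟩
  · obtain ⟨w⟩ := hne
    exact ⟨_, ⟨w, rfl⟩⟩
  · rintro _ ⟨α, rfl⟩ _ ⟨β, rfl⟩
    refine ⟨mv W (max α β), ⟨_, rfl⟩, ?_⟩
    rintro x (hx | hx)
    · intro γ hγ; exact lt_of_lt_of_le (hx γ hγ) (le_max_left _ _)
    · intro γ hγ; exact lt_of_lt_of_le (hx γ hγ) (le_max_right _ _)
  · rintro _ ⟨α, rfl⟩
    exact ⟨_, hVlegal α⟩

end Pool.Agent.Results.MP_953c35_gt.MarkovInequivalent
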